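import Pool.Agent.helper121_SNI.LpSum

/-!
# The second numerical index of the real spaces `ℂ ⊕_p ℂ`, `1 < p < ∞`, `p ≠ 2`

`n'(ℂ ⊕_p ℂ) ≤ M_p = sup_{0 ≤ t ≤ 1} |t^(p-1) - t| / (1 + t^p) ≤ |p - 2| / min(1, p - 1)`.

In particular `n'(ℂ ⊕_p ℂ) → 0` as `p → 2`, although `n'(ℂ ⊕_2 ℂ) = 1`: the second numerical index is
not a continuous function of the absolute norm at `ℓ_2`, and it has no positive lower bound over all
absolute norms.

The operator is `(z, w) ↦ (-w, z)`. Its numerical radius is at most `M_p` (the norming functional at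
`x` is computed in `state_formula` of `Pool.Agent.helper121_SNI.LpSum`), and since `p ≠ 2` every
skew-hermitian operator `S` has vanishing entry `z ↦ (S (z, 0))₂`, so `‖T + S‖ ≥ 1`.
-/

set_option autoImplicit false

namespace Pool.Agent.Results.MP_1cee73_an.SecondIndexLp

open Pool.Agent.H121.SNI
open scoped ENNReal

/-- Upper bound for the second numerical index of the real space `ℂ ⊕_p ℂ`. -/
theorem result (p : ℝ≥0∞) [Fact (1 ≤ p)] (h1 : 1 < p) (htop : p ≠ ∞) (h2 : p ≠ 2) :
    secondIndex (WithLp p (ℂ × ℂ)) ≤ bigM p.toReal ∧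
      bigM p.toReal ≤ |p.toReal - 2| / min 1 (p.toReal - 1) := by
  have hp1 : 1 < p.toReal := by
    have := (ENNReal.toReal_lt_toReal (by simp) htop).2 h1
    simpa using this
  have hp2 : p.toReal ≠ 2 := by
    intro h
    apply h2
    rw [← ENNReal.ofReal_toReal htop, h]
    norm_num
  exact ⟨secondIndex_le_bigM hp1 hp2, bigM_le _ hp1⟩

end Pool.Agent.Results.MP_1cee73_an.SecondIndexLp
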