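import Pool.Agent.helper121_SNI.LOneU

/-!
# The second numerical index of the real spaces `ℂ ⊕_∞ ℂ` and `ℂ ⊕₁ ℂ`

Both are equal to `27/(7√21) = 9√21/49 ≈ 0.8417` (the known bounds were `1/2` and `√3/2 ≈ 0.866`).

The definitions are in `Pool.Agent.helper121_SNI.Basics`: for a real normed space `X`,

* `IsState x f` : `‖x‖ = 1`, `‖f‖ = 1`, `f x = 1`;
* `numRadius T = sSup {|f (T x)| : IsState x f}`;
* `quotNorm T = sInf {‖T + S‖ : numRadius S = 0}`;
* `secondIndex X = sInf {numRadius T : quotNorm T = 1}`.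

The lower bound. A row (for `⊕_∞`) or a column (for `⊕₁`) of `T` gives a map
`z ↦ α z + i κ z + γ conj z` and a functional `Re (conj b z)`, with
`|α + Re (conj γ y²)| + |Re (conj b y)| ≤ V` for every `|y| = 1`, and the claim is
`|α x + γ conj x| + |Re (conj b x)| ≤ (7√21/27) V` for every `|x| = 1`. This is a convexity
argument at the two (of three) cube roots of unity trisecting the angle of `x` (theorem `planar` of
`Pool.Agent.helper121_SNI.K`). The bound is attained by
`(z, w) ↦ -(3/4) z + conj z + 2 Re w` in the row case and by `z ↦ (-(3/4) z + conj z, 2 Re z)` in the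
column case.
-/

set_option autoImplicit false

namespace Pool.Agent.Results.MP_1cee73_an.SecondIndexSums

open Pool.Agent.H121.SNI

/-- The second numerical index of `ℂ ⊕_∞ ℂ` and of `ℂ ⊕₁ ℂ`, as real spaces. -/
theorem result :
    secondIndex (ℂ × ℂ) = 27 / (7 * Real.sqrt 21) ∧
      secondIndex (WithLp 1 (ℂ × ℂ)) = 27 / (7 * Real.sqrt 21) :=
  ⟨secondIndex_lInf, secondIndex_lOne⟩

end Pool.Agent.Results.MP_1cee73_an.SecondIndexSums
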